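import Mathlib

/-!
# The theorem of Beckman and Quarles

A map between Euclidean spaces of the same finite dimension `n ≥ 2` which preserves the distance one preserves all
distances.
-/

set_option autoImplicit false

open Set Filter Topology Metric

noncomputable section

namespace Pool.Agent.H33.NC

/-- `ℝ^n` -/
abbrev E (n : ℕ) : Type := EuclideanSpace ℝ (Fin n)

variable {n : ℕ} {V : Type*} [NormedAddCommGroup V] [InnerProductSpace ℝ V]

/-- centred regular simplices -/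
structure RS (n : ℕ) {V : Type*} [NormedAddCommGroup V] [InnerProductSpace ℝ V] (P : Fin (n + 1) → V) : Prop where
  hsum : ∑ i, P i = 0
  nm : ∀ i, ‖P i‖ ^ 2 = n / (2 * (n + 1))
  inn : ∀ i j, i ≠ j → inner ℝ (P i) (P j) = -1 / (2 * (n + 1) : ℝ)

theorem rs_of (Q : Fin (n + 1) → V) (hQ : ∀ i j, i ≠ j → ‖Q i - Q j‖ = 1) :
    ∃ c : V, RS n (fun i => Q i - c) := by
  obtain ⟨c, hc⟩ : ∃ c : V, c = (1 / ((n : ℝ) + 1)) • ∑ i, Q i := ⟨_, rfl⟩
  obtain ⟨P, hP⟩ : ∃ P : Fin (n + 1) → V, P = fun i => Q i - c := ⟨_, rfl⟩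
  have hn : (0 : ℝ) < (n : ℝ) + 1 := by positivity
  have hsum : ∑ i, P i = 0 := by
    rw [hP]
    simp only [Finset.sum_sub_distrib, Finset.sum_const, Finset.card_univ, Fintype.card_fin]
    rw [hc, ← Nat.cast_smul_eq_nsmul ℝ, smul_smul]
    push_cast
    rw [mul_one_div_cancel hn.ne', one_smul, sub_self]
  have hd : ∀ i j, i ≠ j → ‖P i - P j‖ = 1 := by
    intro i j hij
    rw [hP]
    simpa using hQ i j hij
  obtain ⟨S, hS⟩ : ∃ S : ℝ, S = ∑ j, ‖P j‖ ^ 2 := ⟨_, rfl⟩
  have h1 : ∀ i, ((n : ℝ) + 1) * ‖P i‖ ^ 2 + S = n := by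
    intro i
    have h2 : ∑ j, ‖P i - P j‖ ^ 2 = n := by
      have h3 : ∀ j ∈ (Finset.univ : Finset (Fin (n + 1))), ‖P i - P j‖ ^ 2 = if j = i then 0 else 1 := by
        intro j _
        split_ifs with h
        · rw [h]; simp
        · rw [hd i j (Ne.symm h)]; norm_num
      rw [Finset.sum_congr rfl h3]
      rw [Finset.sum_ite]
      simp only [Finset.sum_const_zero, zero_add, Finset.sum_const, nsmul_eq_mul, mul_one]
      have : (Finset.univ.filter fun j : Fin (n + 1) => ¬ j = i).card = n := by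
        rw [Finset.filter_not, Finset.filter_eq' Finset.univ i]
        simp [Finset.card_sdiff]
      rw [this]
    have h3 : ∑ j, ‖P i - P j‖ ^ 2 = ((n : ℝ) + 1) * ‖P i‖ ^ 2 - 2 * inner ℝ (P i) (∑ j, P j) + S := by
      have h4 : ∀ j ∈ (Finset.univ : Finset (Fin (n + 1))),
          ‖P i - P j‖ ^ 2 = (‖P i‖ ^ 2 - 2 * inner ℝ (P i) (P j)) + ‖P j‖ ^ 2 := by
        intro j _
        rw [norm_sub_sq_real]
      rw [Finset.sum_congr rfl h4, Finset.sum_add_distrib, Finset.sum_sub_distrib, ← Finset.mul_sum, ← inner_sum, hS]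
      simp
    rw [h3, hsum, inner_zero_right] at h2
    linarith
  have h2 : S = n / 2 := by
    have h3 : ∑ i : Fin (n + 1), (((n : ℝ) + 1) * ‖P i‖ ^ 2 + S) = ∑ i : Fin (n + 1), (n : ℝ) :=
      Finset.sum_congr rfl fun i _ => h1 i
    rw [Finset.sum_add_distrib, ← Finset.mul_sum, ← hS] at h3
    simp only [Finset.sum_const, Finset.card_univ, Fintype.card_fin, nsmul_eq_mul] at h3
    push_cast at h3
    have h4 : ((n : ℝ) + 1) * (2 * S) = ((n : ℝ) + 1) * n := by linarith
    have h5 := mul_left_cancel₀ hn.ne' h4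
    linarith
  have h3 : ∀ i, ‖P i‖ ^ 2 = n / (2 * (n + 1)) := by
    intro i
    have h4 := h1 i
    rw [h2] at h4
    rw [eq_div_iff (by positivity)]
    linarith
  refine ⟨c, ?_⟩
  rw [hP] at hsum h3 hd
  refine ⟨hsum, h3, fun i j hij => ?_⟩
  have h4 : ‖(Q i - c) - (Q j - c)‖ ^ 2 = 1 := by rw [hd i j hij]; norm_num
  rw [norm_sub_sq_real, h3 i, h3 j] at h4
  rw [eq_div_iff (by positivity)]
  field_simp at h4
  linarith

theorem RS.frame {P : Fin (n + 1) → V} (hP : RS n P) (hV : Module.finrank ℝ V = n) (hn : 0 < n) (z : V) :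
    z = (2 : ℝ) • ∑ i, inner ℝ (P i) z • P i := by
  have hn0 : (0 : ℝ) < (n : ℝ) + 1 := by positivity
  have hli : LinearIndependent ℝ fun i : Fin n => P i.castSucc := by
    rw [Fintype.linearIndependent_iff]
    intro a ha
    have h1 : ∀ j : Fin n, a j = (∑ i, a i) / (n + 1) := by
      intro j
      have h2 : inner ℝ (∑ i, a i • P i.castSucc) (P j.castSucc) = 0 := by rw [ha, inner_zero_left]
      rw [sum_inner] at h2
      have h3 : ∀ i ∈ (Finset.univ : Finset (Fin n)), inner ℝ (a i • P i.castSucc) (P j.castSucc) =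
          (if i = j then a j / 2 else 0) - a i / (2 * (n + 1)) := by
        intro i _
        rw [real_inner_smul_left]
        split_ifs with h
        · rw [h, real_inner_self_eq_norm_sq, hP.nm]
          field_simp
          ring
        · rw [hP.inn _ _ (fun h' => h (Fin.castSucc_injective _ h'))]
          ring
      rw [Finset.sum_congr rfl h3, Finset.sum_sub_distrib, Finset.sum_ite_eq' Finset.univ j, ← Finset.sum_div] at h2
      simp only [Finset.mem_univ, if_true] at h2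
      field_simp at h2 ⊢
      linarith
    have h2 : ∑ i, a i = 0 := by
      have h3 : ∑ j : Fin n, a j = ∑ j : Fin n, (∑ i, a i) / ((n : ℝ) + 1) := Finset.sum_congr rfl fun j _ => h1 j
      rw [Finset.sum_const, Finset.card_univ, Fintype.card_fin, nsmul_eq_mul] at h3
      field_simp at h3
      linarith
    intro i
    rw [h1 i, h2, zero_div]
  have hspan : Submodule.span ℝ (range fun i : Fin n => P i.castSucc) = ⊤ := by
    have : FiniteDimensional ℝ V := Module.finite_of_finrank_pos (by rw [hV]; exact hn)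
    refine hli.span_eq_top_of_card_eq_finrank' ?_
    rw [hV, Fintype.card_fin]
  have hmem : z ∈ Submodule.span ℝ (range fun i : Fin n => P i.castSucc) := by rw [hspan]; trivial
  induction hmem using Submodule.span_induction with
  | mem x hx =>
    obtain ⟨j, rfl⟩ := hx
    have h1 : ∑ i, inner ℝ (P i) (P j.castSucc) • P i = (1 / 2 : ℝ) • P j.castSucc := by
      have h2 : ∀ i ∈ (Finset.univ : Finset (Fin (n + 1))), inner ℝ (P i) (P j.castSucc) • P i =
          (-1 / (2 * (n + 1) : ℝ)) • P i + (if i = j.castSucc then (1 / 2 : ℝ) • P j.castSucc else 0) := by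
        intro i _
        split_ifs with h
        · rw [h, real_inner_self_eq_norm_sq, hP.nm, ← add_smul]
          congr 1
          field_simp
          ring
        · rw [hP.inn _ _ h, add_zero]
      rw [Finset.sum_congr rfl h2, Finset.sum_add_distrib, ← Finset.smul_sum, hP.hsum, smul_zero, zero_add,
        Finset.sum_ite_eq' Finset.univ j.castSucc]
      simp
    simp only
    rw [h1, smul_smul]
    norm_num
  | zero => simp
  | add x y _ _ hx hy =>
    simp only [inner_add_right, add_smul, Finset.sum_add_distrib, smul_add]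
    rw [← hx, ← hy]
  | smul a x _ hx =>
    simp only [real_inner_smul_right, mul_smul]
    rw [← Finset.smul_sum, smul_comm, ← hx]

/-- the reflected vertex -/
theorem RS.vertex {P : Fin (n + 1) → V} (hP : RS n P) (hV : Module.finrank ℝ V = n) (hn : 0 < n) (i : Fin (n + 1))
    (z : V) (hz : ∀ j, j ≠ i → ‖z - P j‖ = 1) : z = P i ∨ z = (-(((n : ℝ) + 2) / n)) • P i := by
  have hn1 : (0 : ℝ) < n := by exact_mod_cast hn
  obtain ⟨a, ha⟩ : ∃ a : ℝ, a = (‖z‖ ^ 2 + n / (2 * (n + 1)) - 1) / 2 := ⟨_, rfl⟩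
  have h1 : ∀ j, j ≠ i → inner ℝ (P j) z = a := by
    intro j hj
    have h2 : ‖z - P j‖ ^ 2 = 1 := by rw [hz j hj]; norm_num
    rw [norm_sub_sq_real, hP.nm, real_inner_comm] at h2
    rw [ha]
    linarith
  obtain ⟨b, hb⟩ : ∃ b : ℝ, b = inner ℝ (P i) z := ⟨_, rfl⟩
  have h2 : ∀ j ∈ (Finset.univ : Finset (Fin (n + 1))), inner ℝ (P j) z = a + (if j = i then b - a else 0) := by
    intro j _
    split_ifs with h
    · rw [h, ← hb]; ring
    · rw [h1 j h, add_zero]
  have h3 : b - a = -(((n : ℝ) + 1) * a) := by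
    have h4 : ∑ j, inner ℝ (P j) z = 0 := by rw [← sum_inner, hP.hsum, inner_zero_left]
    rw [Finset.sum_congr rfl h2, Finset.sum_add_distrib, Finset.sum_ite_eq' Finset.univ i] at h4
    simp only [Finset.sum_const, Finset.card_univ, Fintype.card_fin, nsmul_eq_mul, Finset.mem_univ, if_true] at h4
    push_cast at h4
    linarith
  have h4 : z = (-(2 * ((n : ℝ) + 1) * a)) • P i := by
    have h5 := hP.frame hV hn z
    have h6 : ∑ j, inner ℝ (P j) z • P j = (b - a) • P i := by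
      have h7 : ∀ j ∈ (Finset.univ : Finset (Fin (n + 1))), inner ℝ (P j) z • P j =
          a • P j + (if j = i then (b - a) • P i else 0) := by
        intro j hj
        rw [h2 j hj, add_smul]
        split_ifs with h
        · rw [h]
        · rw [zero_smul]
      rw [Finset.sum_congr rfl h7, Finset.sum_add_distrib, ← Finset.smul_sum, hP.hsum, smul_zero, zero_add,
        Finset.sum_ite_eq' Finset.univ i]
      simp
    rw [h6, smul_smul, h3] at h5
    rw [h5]
    congr 1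
    ring
  obtain ⟨l, hl⟩ : ∃ l : ℝ, l = -(2 * ((n : ℝ) + 1) * a) := ⟨_, rfl⟩
  rw [← hl] at h4
  have h5 : ‖z‖ ^ 2 = l ^ 2 * (n / (2 * (n + 1))) := by
    rw [h4, norm_smul, mul_pow, hP.nm, Real.norm_eq_abs, sq_abs]
  rw [h5] at ha
  rw [ha] at hl
  have h6 : (l - 1) * (n * l + (n + 2)) = 0 := by
    field_simp at hl
    nlinarith
  rcases mul_eq_zero.1 h6 with h | h
  · left
    rw [h4, show l = 1 by linarith, one_smul]
  · right
    rw [h4]
    congr 1
    field_simp
    linarith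

/-- distances between the vertices and the reflected vertices -/
theorem RS.dist1 {P : Fin (n + 1) → V} (hP : RS n P) (hn : 0 < n) {i j : Fin (n + 1)} (hij : i ≠ j) :
    ‖(-(((n : ℝ) + 2) / n)) • P i - P j‖ = 1 := by
  have hn1 : (0 : ℝ) < n := by exact_mod_cast hn
  have h1 : ‖(-(((n : ℝ) + 2) / n)) • P i - P j‖ ^ 2 = 1 := by
    rw [norm_sub_sq_real, norm_smul, mul_pow, real_inner_smul_left, hP.inn i j hij, hP.nm, hP.nm,
      Real.norm_eq_abs, sq_abs]
    field_simp
    ring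
  have h2 : (‖(-(((n : ℝ) + 2) / n)) • P i - P j‖ - 1) * (‖(-(((n : ℝ) + 2) / n)) • P i - P j‖ + 1) = 0 := by
    ring_nf
    ring_nf at h1
    rw [h1]; ring
  rcases mul_eq_zero.1 h2 with h | h
  · linarith
  · have := norm_nonneg ((-(((n : ℝ) + 2) / n)) • P i - P j)
    linarith

/-- the distance of the two apexes -/
def dd (n : ℕ) : ℝ := √(2 * (n + 1) / n)

theorem dd_sq (n : ℕ) : dd n ^ 2 = 2 * (n + 1) / n := Real.sq_sqrt (by positivity)

theorem dd_gt (hn : 0 < n) : 1 < dd n := by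
  have hn1 : (0 : ℝ) < n := by exact_mod_cast hn
  rw [dd]
  refine Real.lt_sqrt_of_sq_lt ?_
  rw [lt_div_iff₀ hn1]
  linarith

theorem RS.dist2 {P : Fin (n + 1) → V} (hP : RS n P) (hn : 0 < n) (i : Fin (n + 1)) :
    ‖(-(((n : ℝ) + 2) / n)) • P i - P i‖ = dd n := by
  have hn1 : (0 : ℝ) < n := by exact_mod_cast hn
  have h1 : (-(((n : ℝ) + 2) / n)) • P i - P i = (-(2 * ((n : ℝ) + 1) / n)) • P i := by
    have h0 : -(2 * ((n : ℝ) + 1) / n) = -(((n : ℝ) + 2) / n) - 1 := by
      field_simp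
      ring
    rw [h0, sub_smul _ 1, one_smul]
  rw [h1, norm_smul, Real.norm_eq_abs, abs_neg, abs_of_pos (by positivity)]
  have h2 : ‖P i‖ = √(n / (2 * (n + 1))) := by
    rw [← hP.nm i, Real.sqrt_sq (norm_nonneg _)]
  rw [h2, dd]
  have h3 : 2 * ((n : ℝ) + 1) / n = √((2 * ((n : ℝ) + 1) / n) ^ 2) := (Real.sqrt_sq (by positivity)).symm
  conv_lhs => rw [h3]
  rw [← Real.sqrt_mul (by positivity)]
  congr 1
  field_simp

/-- a regular simplex -/
theorem exists_simplex (n : ℕ) (hn : 0 < n) : ∃ q : Fin (n + 1) → E n, ∀ i j, i ≠ j → ‖q i - q j‖ = 1 := by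
  have hn1 : (0 : ℝ) < n := by exact_mod_cast hn
  obtain ⟨b, hb⟩ : ∃ b : Fin n → E n, b = fun i => EuclideanSpace.single i (1 : ℝ) := ⟨_, rfl⟩
  have hbo : ∀ i j, inner ℝ (b i) (b j) = if i = j then 1 else 0 := by
    intro i j
    rw [hb]
    simp only
    have := orthonormal_iff_ite.1 (EuclideanSpace.basisFun (Fin n) ℝ).orthonormal i j
    simpa using this
  obtain ⟨τ, hτ⟩ : ∃ τ : ℝ, τ = (1 + √(1 + n)) / n := ⟨_, rfl⟩
  have hτ2 : n * τ ^ 2 - 2 * τ - 1 = 0 := by
    have h1 : √(1 + (n : ℝ)) ^ 2 = 1 + n := Real.sq_sqrt (by positivity)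
    rw [hτ]
    field_simp
    ring_nf
    rw [h1]
    ring
  obtain ⟨w, hw⟩ : ∃ w : E n, w = τ • ∑ j, b j := ⟨_, rfl⟩
  have hwb : ∀ i, inner ℝ w (b i) = τ := by
    intro i
    rw [hw, real_inner_smul_left, sum_inner, Finset.sum_congr rfl fun j _ => hbo j i, Finset.sum_ite_eq' Finset.univ i]
    simp
  have hww : ‖w‖ ^ 2 = τ ^ 2 * n := by
    rw [← real_inner_self_eq_norm_sq]
    conv_lhs => rw [hw]
    rw [real_inner_smul_left, sum_inner]
    have : ∀ j ∈ (Finset.univ : Finset (Fin n)), inner ℝ (b j) (τ • ∑ j, b j) = τ := by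
      intro j _
      rw [← hw, real_inner_comm, hwb]
    rw [Finset.sum_congr rfl this]
    simp
    ring
  have hbn : ∀ i, ‖b i‖ ^ 2 = 1 := by
    intro i
    rw [← real_inner_self_eq_norm_sq, hbo]
    simp
  have h1 : ∀ i, ‖w - b i‖ ^ 2 = 2 := by
    intro i
    rw [norm_sub_sq_real, hww, hwb, hbn]
    linarith
  have h2 : ∀ i j, i ≠ j → ‖b i - b j‖ ^ 2 = 2 := by
    intro i j hij
    rw [norm_sub_sq_real, hbn, hbn, hbo, if_neg hij]
    norm_num
  have hs : ∀ v : E n, ‖v‖ ^ 2 = 2 → ‖(1 / √2 : ℝ) • v‖ = 1 := by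
    intro v hv
    have h3 : ‖v‖ = √2 := by rw [← hv, Real.sqrt_sq (norm_nonneg _)]
    rw [norm_smul, h3, Real.norm_eq_abs, abs_of_pos (by positivity)]
    field_simp
  refine ⟨Fin.cons ((1 / √2 : ℝ) • w) (fun i => (1 / √2 : ℝ) • b i), fun i j => ?_⟩
  refine Fin.cases ?_ (fun i => ?_) i
  · refine Fin.cases (fun h => absurd rfl h) (fun j _ => ?_) j
    rw [Fin.cons_zero, Fin.cons_succ, ← smul_sub]
    exact hs _ (h1 j)
  · refine Fin.cases (fun _ => ?_) (fun j hij => ?_) j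
    · rw [Fin.cons_zero, Fin.cons_succ, norm_sub_rev, ← smul_sub]
      exact hs _ (h1 i)
    · rw [Fin.cons_succ, Fin.cons_succ, ← smul_sub]
      exact hs _ (h2 i j fun h => hij (by rw [h]))

/-- motions -/
theorem exists_motion {a b a' b' : E n} (h : ‖b - a‖ = ‖b' - a'‖) :
    ∃ T : E n → E n, (∀ x y, ‖T x - T y‖ = ‖x - y‖) ∧ T a = a' ∧ T b = b' := by
  refine ⟨fun x => a' + Submodule.reflection (Submodule.span ℝ {(b - a) - (b' - a')})ᗮ (x - a), fun x y => ?_, ?_, ?_⟩
  · rw [add_sub_add_left_eq_sub, ← map_sub, sub_sub_sub_cancel_right, LinearIsometryEquiv.norm_map]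
  · simp
  · show a' + Submodule.reflection (Submodule.span ℝ {(b - a) - (b' - a')})ᗮ (b - a) = b'
    rw [Submodule.reflection_sub h]
    abel

/-- two-point completion -/
theorem exists_third (hn : 2 ≤ n) {a b : ℝ} (ha : 0 ≤ a) (hb : 0 ≤ b) (x y : E n) (h1 : ‖x - y‖ ≤ a + b)
    (h2 : a ≤ b + ‖x - y‖) (h3 : b ≤ a + ‖x - y‖) : ∃ z : E n, ‖x - z‖ = a ∧ ‖z - y‖ = b := by
  obtain ⟨c, hc⟩ : ∃ c : ℝ, c = ‖x - y‖ := ⟨_, rfl⟩
  rw [← hc] at h1 h2 h3
  obtain ⟨i0, hi0⟩ : ∃ i : Fin n, i = ⟨0, by omega⟩ := ⟨_, rfl⟩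
  obtain ⟨i1, hi1⟩ : ∃ i : Fin n, i = ⟨1, by omega⟩ := ⟨_, rfl⟩
  have h01 : i0 ≠ i1 := by rw [hi0, hi1]; simp
  obtain ⟨u, hu⟩ : ∃ u : E n, u = EuclideanSpace.single i0 (1 : ℝ) := ⟨_, rfl⟩
  obtain ⟨v, hv⟩ : ∃ v : E n, v = EuclideanSpace.single i1 (1 : ℝ) := ⟨_, rfl⟩
  have hun : ‖u‖ = 1 := by rw [hu]; simp
  have hvn : ‖v‖ = 1 := by rw [hv]; simp
  have huv : inner ℝ u v = 0 := by
    rw [hu, hv]
    have := (EuclideanSpace.basisFun (Fin n) ℝ).orthonormal.2 h01
    simpa using this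
  have hc0 : 0 ≤ c := by rw [hc]; exact norm_nonneg _
  obtain ⟨T, hT, hT0, hT1⟩ := exists_motion (a := (0 : E n)) (b := c • u) (a' := x) (b' := y) (by
    rw [sub_zero, norm_smul, hun, mul_one, Real.norm_eq_abs, abs_of_nonneg hc0, hc, norm_sub_rev])
  have key : ∀ α β : ℝ, ‖α • u + β • v‖ ^ 2 = α ^ 2 + β ^ 2 := by
    intro α β
    rw [norm_add_sq_real, real_inner_smul_left, real_inner_smul_right, huv, norm_smul, norm_smul, hun, hvn,
      Real.norm_eq_abs, Real.norm_eq_abs, mul_pow, mul_pow, sq_abs, sq_abs]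
    ring
  have hfin : ∀ α β : ℝ, α ^ 2 + β ^ 2 = a ^ 2 → (α - c) ^ 2 + β ^ 2 = b ^ 2 →
      ∃ z : E n, ‖x - z‖ = a ∧ ‖z - y‖ = b := by
    intro α β e1 e2
    refine ⟨T (α • u + β • v), ?_, ?_⟩
    · rw [← hT0, norm_sub_rev, hT, sub_zero]
      have h4 := key α β
      rw [e1] at h4
      exact (sq_eq_sq₀ (norm_nonneg _) ha).1 h4
    · rw [← hT1, hT]
      have h4 := key (α - c) β
      rw [e2] at h4
      have h5 : α • u + β • v - c • u = (α - c) • u + β • v := by
        rw [sub_smul]; abel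
      rw [h5]
      exact (sq_eq_sq₀ (norm_nonneg _) hb).1 h4
  rcases hc0.eq_or_lt with h | h
  · rw [← h] at h1 h2 h3 hfin
    have hab : a = b := by linarith
    exact hfin a 0 (by ring) (by rw [hab]; ring)
  · obtain ⟨α, hα⟩ : ∃ α : ℝ, α = (a ^ 2 + c ^ 2 - b ^ 2) / (2 * c) := ⟨_, rfl⟩
    have h4 : 2 * c * α = a ^ 2 + c ^ 2 - b ^ 2 := by rw [hα]; field_simp
    have h5 : α ^ 2 ≤ a ^ 2 := by
      rw [sq_le_sq, abs_of_nonneg ha, abs_le]
      constructor
      · have : 2 * c * (-a) ≤ 2 * c * α := by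
          rw [h4]
          nlinarith [mul_nonneg (by linarith : 0 ≤ a + c - b) (by linarith : 0 ≤ a + c + b)]
        exact le_of_mul_le_mul_left this (by positivity)
      · have : 2 * c * α ≤ 2 * c * a := by
          rw [h4]
          nlinarith [mul_nonneg (by linarith : 0 ≤ b - a + c) (by linarith : 0 ≤ b + a - c)]
        exact le_of_mul_le_mul_left this (by positivity)
    refine hfin α (√(a ^ 2 - α ^ 2)) ?_ ?_
    · rw [Real.sq_sqrt (by linarith)]; ring
    · rw [Real.sq_sqrt (by linarith)]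
      nlinarith

/-- `f` preserves the distance `r` -/
def Pres (f : E n → V) (r : ℝ) : Prop := ∀ x y, ‖x - y‖ = r → ‖f x - f y‖ = r

theorem Pres.scale {f : E n → V} {r : ℝ} (hr : 0 < r) (h : Pres f r) : Pres (fun x => r⁻¹ • f (r • x)) 1 := by
  intro x y hxy
  rw [← smul_sub, norm_smul, h (r • x) (r • y) (by rw [← smul_sub, norm_smul, hxy, mul_one, Real.norm_eq_abs,
    abs_of_pos hr]), Real.norm_eq_abs, abs_of_pos (by positivity), inv_mul_cancel₀ hr.ne']

theorem Pres.unscale {f : E n → V} {r s : ℝ} (hr : 0 < r) (h : Pres (fun x => r⁻¹ • f (r • x)) s) :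
    Pres f (r * s) := by
  intro x y hxy
  have h1 := h (r⁻¹ • x) (r⁻¹ • y) (by
    rw [← smul_sub, norm_smul, hxy, Real.norm_eq_abs, abs_of_pos (by positivity), ← mul_assoc, inv_mul_cancel₀ hr.ne',
      one_mul])
  simp only [smul_smul, mul_inv_cancel₀ hr.ne', one_smul] at h1
  rw [← smul_sub, norm_smul, Real.norm_eq_abs, abs_of_pos (by positivity)] at h1
  rw [← h1, ← mul_assoc, mul_inv_cancel₀ hr.ne', one_mul]

theorem Pres.dich (hn : 0 < n) (hV : Module.finrank ℝ V = n) {f : E n → V} (h : Pres f 1) {x y : E n}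
    (hxy : ‖x - y‖ = dd n) : f x = f y ∨ ‖f x - f y‖ = dd n := by
  obtain ⟨q, hq⟩ := exists_simplex n hn
  obtain ⟨c, hc⟩ := rs_of q hq
  obtain ⟨x0, hx0⟩ : ∃ x0 : E n, x0 = c + (-(((n : ℝ) + 2) / n)) • (q 0 - c) := ⟨_, rfl⟩
  have h1 : ‖x0 - q 0‖ = dd n := by
    rw [← hc.dist2 hn 0, hx0]
    congr 1
    abel
  have h2 : ∀ j, j ≠ 0 → ‖x0 - q j‖ = 1 := by
    intro j hj
    rw [← hc.dist1 hn hj.symm, hx0]
    congr 1
    abel
  obtain ⟨T, hT, hT0, hT1⟩ := exists_motion (a := q 0) (b := x0) (a' := x) (b' := y) (by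
    rw [h1, ← hxy, norm_sub_rev])
  have h3 : ∀ i j, i ≠ j → ‖f (T (q i)) - f (T (q j))‖ = 1 := fun i j hij => h _ _ (by rw [hT]; exact hq i j hij)
  obtain ⟨C, hC⟩ := rs_of (fun i => f (T (q i))) h3
  have h4 := hC.vertex hV hn 0 (f y - C) (fun j hj => by
    rw [sub_sub_sub_cancel_right]
    refine h _ _ ?_
    rw [← hT1, hT]
    exact h2 j hj)
  rw [hT0] at h4
  rcases h4 with h4 | h4
  · left
    exact (sub_left_injective h4).symm
  · right
    have h5 := hC.dist2 hn 0
    rw [hT0, ← h4, sub_sub_sub_cancel_right, norm_sub_rev] at h5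
    exact h5

theorem Pres.dd (hn : 2 ≤ n) (hV : Module.finrank ℝ V = n) {f : E n → V} (h : Pres f 1) : Pres f (dd n) := by
  intro x y hxy
  rcases h.dich (by omega) hV hxy with h1 | h1
  · exfalso
    have hg := dd_gt (n := n) (by omega)
    obtain ⟨z, hz1, hz2⟩ := exists_third hn (a := NC.dd n) (b := 1) (by linarith) (by norm_num) x y
      (by linarith) (by linarith) (by linarith)
    have h2 := h.dich (by omega) hV hz1
    have h3 := h z y hz2
    rw [← h1, norm_sub_rev] at h3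
    rcases h2 with h2 | h2
    · rw [h2, sub_self, norm_zero] at h3
      norm_num at h3
    · rw [h2] at h3
      linarith
  · exact h1

theorem Pres.mu (hn : 2 ≤ n) (hV : Module.finrank ℝ V = n) {f : E n → V} (h : Pres f 1) :
    Pres f (((n : ℝ) + 2) / n) := by
  intro x y hxy
  have hn0 : 0 < n := by omega
  have hn1 : (0 : ℝ) < n := by exact_mod_cast hn0
  obtain ⟨q, hq⟩ := exists_simplex n hn0
  obtain ⟨c, hc⟩ := rs_of q hq
  obtain ⟨X, hX⟩ : ∃ X : Fin (n + 1) → E n, ∀ i, X i = c + (-(((n : ℝ) + 2) / n)) • (q i - c) := ⟨_, fun _ => rfl⟩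
  have h1 : ∀ i, ‖X i - q i‖ = NC.dd n := by
    intro i
    rw [← hc.dist2 hn0 i, hX]
    congr 1
    abel
  have h2 : ∀ i j, i ≠ j → ‖X i - q j‖ = 1 := by
    intro i j hj
    rw [← hc.dist1 hn0 hj, hX]
    congr 1
    abel
  obtain ⟨i1, hi1⟩ : ∃ i1 : Fin (n + 1), i1 = Fin.last n := ⟨_, rfl⟩
  have h01 : (0 : Fin (n + 1)) ≠ i1 := by
    rw [hi1]
    intro h
    have := congrArg Fin.val h
    simp at this
    omega
  have h3 : ∀ i j, i ≠ j → ‖X i - X j‖ = ((n : ℝ) + 2) / n := by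
    intro i j hij
    rw [hX, hX, add_sub_add_left_eq_sub, ← smul_sub, sub_sub_sub_cancel_right, norm_smul, hq i j hij, mul_one,
      norm_neg, Real.norm_eq_abs, abs_of_pos (by positivity)]
  obtain ⟨T, hT, hT0, hT1⟩ := exists_motion (a := X 0) (b := X i1) (a' := x) (b' := y) (by
    rw [h3 _ _ h01.symm, ← hxy, norm_sub_rev])
  have h4 : ∀ i j, i ≠ j → ‖f (T (q i)) - f (T (q j))‖ = 1 := fun i j hij => h _ _ (by rw [hT]; exact hq i j hij)
  obtain ⟨C, hC⟩ := rs_of (fun i => f (T (q i))) h4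
  have h5 : ∀ i, f (T (X i)) - C = (-(((n : ℝ) + 2) / n)) • (f (T (q i)) - C) := by
    intro i
    have h6 := hC.vertex hV hn0 i (f (T (X i)) - C) (fun j hj => by
      rw [sub_sub_sub_cancel_right]
      exact h _ _ (by rw [hT]; exact h2 i j hj.symm))
    rcases h6 with h6 | h6
    · exfalso
      have h7 : f (T (X i)) = f (T (q i)) := sub_left_injective h6
      have h8 := h.dd hn hV (T (X i)) (T (q i)) (by rw [hT]; exact h1 i)
      rw [h7, sub_self, norm_zero] at h8
      have := dd_gt hn0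
      linarith
    · exact h6
  have h6 : f x - f y = (-(((n : ℝ) + 2) / n)) • (f (T (q 0)) - f (T (q i1))) := by
    have h7 := h5 0
    have h8 := h5 i1
    rw [hT0] at h7
    rw [hT1] at h8
    rw [← sub_sub_sub_cancel_right (f x) (f y) C, h7, h8, ← smul_sub, sub_sub_sub_cancel_right]
  rw [h6, norm_smul, h4 _ _ h01, mul_one, norm_neg, Real.norm_eq_abs, abs_of_pos (by positivity)]

theorem Pres.shrink (hn : 2 ≤ n) (hV : Module.finrank ℝ V = n) {f : E n → V} (h : Pres f 1) :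
    Pres f (NC.dd n ^ 2)⁻¹ := by
  have hn0 : 0 < n := by omega
  have hn1 : (0 : ℝ) < n := by exact_mod_cast hn0
  have hg := dd_gt hn0
  have hdd : (0 : ℝ) < NC.dd n := by linarith
  have h1 : Pres f (NC.dd n) := h.dd hn hV
  have h2 : Pres f (NC.dd n ^ 2) := by
    have h3 := Pres.unscale hdd ((h1.scale hdd).dd hn hV)
    rwa [← sq] at h3
  have h3 : Pres f (NC.dd n ^ 2 - 1) := by
    have h4 := h.mu hn hV
    have h5 : NC.dd n ^ 2 - 1 = ((n : ℝ) + 2) / n := by
      rw [dd_sq]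
      field_simp
      ring
    rwa [h5]
  have hD : 1 < NC.dd n ^ 2 := by nlinarith
  obtain ⟨D, hDD⟩ : ∃ D : ℝ, D = NC.dd n ^ 2 := ⟨_, rfl⟩
  rw [← hDD] at h2 h3 hD ⊢
  have hD0 : 0 < D := by linarith
  intro x y hxy
  obtain ⟨z, hz1, hz2⟩ := exists_third hn (a := 1) (b := 1) (by norm_num) (by norm_num) x y (by
    rw [hxy]
    have : D⁻¹ ≤ 1 := inv_le_one_of_one_le₀ hD.le
    linarith) (by rw [hxy]; have : 0 < D⁻¹ := by positivity
                  linarith) (by rw [hxy]; have : 0 < D⁻¹ := by positivity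
                                linarith)
  rw [norm_sub_rev] at hz1
  -- the points on the rays
  have key : ∀ p : E n, ‖z - p‖ = 1 → f p = AffineMap.lineMap (f z) (f (z + D • (p - z))) D⁻¹ := by
    intro p hp
    have e1 : dist (f z) (f p) = 1 := by rw [dist_eq_norm]; exact h z p hp
    have e2 : dist (f z) (f (z + D • (p - z))) = D := by
      rw [dist_eq_norm]
      refine h2 _ _ ?_
      rw [sub_add_cancel_left, norm_neg, norm_smul, norm_sub_rev, hp, mul_one, Real.norm_eq_abs, abs_of_pos hD0]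
    have e3 : dist (f p) (f (z + D • (p - z))) = D - 1 := by
      rw [dist_eq_norm]
      refine h3 _ _ ?_
      have : p - (z + D • (p - z)) = (D - 1) • (z - p) := by module
      rw [this, norm_smul, hp, mul_one, Real.norm_eq_abs, abs_of_pos (by linarith)]
    refine eq_lineMap_of_dist_eq_mul_of_dist_eq_mul ?_ ?_
    · rw [e1, e2, inv_mul_cancel₀ hD0.ne']
    · rw [e3, e2]
      field_simp
  have h4 : ‖f (z + D • (x - z)) - f (z + D • (y - z))‖ = 1 := by
    refine h _ _ ?_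
    rw [add_sub_add_left_eq_sub, ← smul_sub, sub_sub_sub_cancel_right, norm_smul, hxy, Real.norm_eq_abs,
      abs_of_pos hD0, mul_inv_cancel₀ hD0.ne']
  rw [key x hz1, key y hz2, AffineMap.lineMap_apply_module', AffineMap.lineMap_apply_module']
  have h5 : D⁻¹ • (f (z + D • (x - z)) - f z) + f z - (D⁻¹ • (f (z + D • (y - z)) - f z) + f z) =
      D⁻¹ • (f (z + D • (x - z)) - f (z + D • (y - z))) := by module
  rw [h5, norm_smul, h4, mul_one, Real.norm_eq_abs, abs_of_pos (by positivity)]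

/-- **The theorem of Beckman and Quarles.** -/
theorem beckman_quarles (hn : 2 ≤ n) (hV : Module.finrank ℝ V = n) {f : E n → V} (h : Pres f 1) (x y : E n) :
    ‖f x - f y‖ = ‖x - y‖ := by
  have hn0 : 0 < n := by omega
  have hg := dd_gt hn0
  have hdd : (0 : ℝ) < NC.dd n := by linarith
  -- large and small distances
  have hlarge : ∀ k : ℕ, Pres f (NC.dd n ^ k) := by
    intro k
    induction k with
    | zero => simpa using h
    | succ k ih =>
      have h1 := Pres.unscale (pow_pos hdd k) ((ih.scale (pow_pos hdd k)).dd hn hV)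
      rwa [← pow_succ] at h1
  have hsmall : ∀ k : ℕ, Pres f ((NC.dd n ^ 2)⁻¹ ^ k) := by
    intro k
    have h0 : 0 < (NC.dd n ^ 2)⁻¹ := by positivity
    induction k with
    | zero => simpa using h
    | succ k ih =>
      have h1 := Pres.unscale (pow_pos h0 k) ((ih.scale (pow_pos h0 k)).shrink hn hV)
      rwa [← pow_succ] at h1
  -- upper bound for a small preserved distance
  have hup : ∀ a : ℝ, 0 < a → Pres f a → ∀ m : ℕ, ∀ x y : E n, ‖x - y‖ ≤ (m + 2) * a →
      ‖f x - f y‖ ≤ (m + 2) * a := by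
    intro a ha hP m
    induction m with
    | zero =>
      intro x y hxy
      obtain ⟨z, hz1, hz2⟩ := exists_third hn ha.le ha.le x y (by push_cast at hxy; linarith)
        (by linarith [norm_nonneg (x - y)]) (by linarith [norm_nonneg (x - y)])
      have h1 := hP _ _ hz1
      have h2 := hP _ _ hz2
      have h3 := norm_sub_le_norm_sub_add_norm_sub (f x) (f z) (f y)
      push_cast
      linarith
    | succ m ih =>
      intro x y hxy
      by_cases hle : ‖x - y‖ ≤ (m + 2) * a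
      · have h1 := ih x y hle
        push_cast
        linarith
      · push Not at hle
        have hm : (0 : ℝ) ≤ m := Nat.cast_nonneg m
        have hlt : a ≤ ‖x - y‖ := by nlinarith
        obtain ⟨z, hz1, hz2⟩ := exists_third hn (a := a) (b := ‖x - y‖ - a) ha.le (by linarith) x y
          (by linarith) (by linarith) (by linarith)
        have h1 := hP _ _ hz1
        push_cast at hxy
        have h2 := ih z y (by rw [hz2]; linarith)
        have h3 := norm_sub_le_norm_sub_add_norm_sub (f x) (f z) (f y)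
        push_cast
        linarith
  have hlip : ∀ x y : E n, ‖f x - f y‖ ≤ ‖x - y‖ := by
    intro x y
    refine le_of_forall_pos_le_add fun η hη => ?_
    have h0 : 0 < (NC.dd n ^ 2)⁻¹ := by positivity
    have h1 : (NC.dd n ^ 2)⁻¹ < 1 := inv_lt_one_of_one_lt₀ (by nlinarith)
    obtain ⟨k, hk⟩ := exists_pow_lt_of_lt_one (show (0 : ℝ) < η / 3 by positivity) h1
    obtain ⟨a, ha⟩ : ∃ a : ℝ, a = (NC.dd n ^ 2)⁻¹ ^ k := ⟨_, rfl⟩
    have ha0 : 0 < a := by rw [ha]; exact pow_pos h0 k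
    have hP : Pres f a := by rw [ha]; exact hsmall k
    rw [← ha] at hk
    have h2 : ‖x - y‖ / a ≤ ⌈‖x - y‖ / a⌉₊ := Nat.le_ceil _
    have h3 : (⌈‖x - y‖ / a⌉₊ : ℝ) < ‖x - y‖ / a + 1 := Nat.ceil_lt_add_one (by positivity)
    rw [div_le_iff₀ ha0] at h2
    have h4 := hup a ha0 hP ⌈‖x - y‖ / a⌉₊ x y (by linarith)
    have h5 : (⌈‖x - y‖ / a⌉₊ : ℝ) * a ≤ ‖x - y‖ + a := by
      have : (⌈‖x - y‖ / a⌉₊ : ℝ) * a ≤ (‖x - y‖ / a + 1) * a := by gcongr
      have h6 : (‖x - y‖ / a + 1) * a = ‖x - y‖ + a := by field_simp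
      linarith
    linarith
  refine le_antisymm (hlip x y) ?_
  obtain ⟨k, hk⟩ := pow_unbounded_of_one_lt ‖x - y‖ hg
  obtain ⟨L, hL⟩ : ∃ L : ℝ, L = NC.dd n ^ k := ⟨_, rfl⟩
  have hP : Pres f L := by rw [hL]; exact hlarge k
  rw [← hL] at hk
  have hL0 : 0 < L := by rw [hL]; positivity
  by_cases hxy : x = y
  · rw [hxy]; simp
  have hd : 0 < ‖x - y‖ := norm_pos_iff.2 (sub_ne_zero.2 hxy)
  obtain ⟨z, hz⟩ : ∃ z : E n, z = x + (L / ‖x - y‖) • (y - x) := ⟨_, rfl⟩
  have h1 : ‖x - z‖ = L := by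
    rw [hz, sub_add_cancel_left, norm_neg, norm_smul, norm_sub_rev y x, Real.norm_eq_abs, abs_of_pos (by positivity)]
    field_simp
  have h2 : ‖y - z‖ = L - ‖x - y‖ := by
    have h3 : y - z = (L / ‖x - y‖ - 1) • (x - y) := by rw [hz]; module
    have h4 : 0 < L / ‖x - y‖ - 1 := by
      rw [sub_pos, one_lt_div hd]; exact hk
    rw [h3, norm_smul, Real.norm_eq_abs, abs_of_pos h4]
    field_simp
  have h3 := hP _ _ h1
  have h4 := hlip y z
  have h5 := norm_sub_le_norm_sub_add_norm_sub (f x) (f y) (f z)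
  rw [h2] at h4
  linarith

end Pool.Agent.H33.NC
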