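import Pool.Agent.H33.NC.BQ

/-!
# A quantitative version of the theorem of Beckman and Quarles

A map of a large ball such that the images of the unit spheres are nearly round spheres is uniformly close to a
similarity on a smaller ball.
-/

set_option autoImplicit false

open Set Filter Topology Metric

noncomputable section

namespace Pool.Agent.H33.NC

variable {n : ℕ}

/-- bounded sequences -/
def Bd (p : ℕ → E n) : Prop := ∃ C : ℝ, ∀ k, ‖p k‖ ≤ C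

/-- the assumptions on a sequence of maps -/
structure Seq (G : ℕ → E n → E n) (e : E n) : Prop where
  ratio : ∀ C : ℝ, ∀ᶠ k : ℕ in atTop, ∀ u v w : E n, ‖u‖ ≤ C → ‖v‖ ≤ C → ‖w‖ ≤ C → ‖u - v‖ = 1 → ‖u - w‖ = 1 →
    ‖G k u - G k v‖ ≤ (1 + 1 / ((k : ℝ) + 1)) * ‖G k u - G k w‖
  zero : ∀ k, G k 0 = 0
  unit : ∀ k, ‖G k 0 - G k e‖ = 1
  e1 : ‖e‖ = 1

/-- the images of the edges at `p` have length tending to one -/
def Good (G : ℕ → E n → E n) (p : ℕ → E n) : Prop := ∀ q : ℕ → E n, Bd q → (∀ k, ‖p k - q k‖ = 1) →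
  Tendsto (fun k => ‖G k (p k) - G k (q k)‖) atTop (𝓝 1)

theorem Seq.edge {G : ℕ → E n → E n} {e : E n} (hG : Seq G e) {p q r : ℕ → E n} (hp : Bd p) (hq : Bd q) (hr : Bd r)
    (h1 : ∀ k, ‖p k - q k‖ = 1) (h2 : ∀ k, ‖p k - r k‖ = 1)
    (h : Tendsto (fun k => ‖G k (p k) - G k (q k)‖) atTop (𝓝 1)) :
    Tendsto (fun k => ‖G k (p k) - G k (r k)‖) atTop (𝓝 1) := by
  obtain ⟨C1, hC1⟩ := hp
  obtain ⟨C2, hC2⟩ := hq
  obtain ⟨C3, hC3⟩ := hr
  have hev := hG.ratio (max C1 (max C2 C3))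
  have ha : ∀ k, ‖p k‖ ≤ max C1 (max C2 C3) := fun k => (hC1 k).trans (le_max_left _ _)
  have hb : ∀ k, ‖q k‖ ≤ max C1 (max C2 C3) := fun k => (hC2 k).trans ((le_max_left _ _).trans (le_max_right _ _))
  have hc : ∀ k, ‖r k‖ ≤ max C1 (max C2 C3) := fun k => (hC3 k).trans ((le_max_right _ _).trans (le_max_right _ _))
  have hlim : Tendsto (fun k : ℕ => 1 + 1 / ((k : ℝ) + 1)) atTop (𝓝 1) := by
    have := tendsto_one_div_add_atTop_nhds_zero_nat (𝕜 := ℝ)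
    simpa using this.const_add 1
  have hu : Tendsto (fun k : ℕ => (1 + 1 / ((k : ℝ) + 1)) * ‖G k (p k) - G k (q k)‖) atTop (𝓝 1) := by
    simpa using hlim.mul h
  have hl : Tendsto (fun k : ℕ => ‖G k (p k) - G k (q k)‖ / (1 + 1 / ((k : ℝ) + 1))) atTop (𝓝 1) := by
    have h0 := h.div hlim one_ne_zero
    rw [div_one] at h0
    exact h0
  refine tendsto_of_tendsto_of_tendsto_of_le_of_le' hl hu ?_ ?_
  · filter_upwards [hev] with k hk
    have h3 := hk (p k) (q k) (r k) (ha k) (hb k) (hc k) (h1 k) (h2 k)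
    rw [div_le_iff₀ (by positivity)]
    linarith
  · filter_upwards [hev] with k hk
    exact hk (p k) (r k) (q k) (ha k) (hc k) (hb k) (h2 k) (h1 k)

theorem Seq.good_zero {G : ℕ → E n → E n} {e : E n} (hG : Seq G e) : Good G (fun _ => 0) := by
  intro q hq h
  refine hG.edge ⟨0, fun _ => by simp⟩ (q := fun _ => e) ⟨1, fun _ => hG.e1.le⟩ hq (fun k => ?_) h ?_
  · rw [zero_sub, norm_neg, hG.e1]
  · simp only [hG.unit]
    exact tendsto_const_nhds

theorem Seq.good_edge {G : ℕ → E n → E n} {e : E n} (hG : Seq G e) {p q : ℕ → E n} (hp : Bd p) (hq : Bd q)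
    (h : Good G p) (h1 : ∀ k, ‖p k - q k‖ = 1) : Good G q := by
  intro r hr h2
  refine hG.edge hq hp hr (fun k => by rw [norm_sub_rev]; exact h1 k) h2 ?_
  have h3 := h q hq h1
  refine h3.congr fun k => ?_
  rw [norm_sub_rev]

theorem Bd.third {p r : ℕ → E n} (hn : 2 ≤ n) (hp : Bd p) (h : ∀ k, ‖p k - r k‖ ≤ 2) :
    ∃ q : ℕ → E n, Bd q ∧ (∀ k, ‖p k - q k‖ = 1) ∧ ∀ k, ‖q k - r k‖ = 1 := by
  have h1 : ∀ k, ∃ z : E n, ‖p k - z‖ = 1 ∧ ‖z - r k‖ = 1 := fun k =>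
    exists_third hn (by norm_num) (by norm_num) (p k) (r k) (by linarith [h k])
      (by linarith [norm_nonneg (p k - r k)]) (by linarith [norm_nonneg (p k - r k)])
  choose q hq1 hq2 using h1
  obtain ⟨C, hC⟩ := hp
  refine ⟨q, ⟨C + 1, fun k => ?_⟩, hq1, hq2⟩
  have h2 : ‖q k‖ ≤ ‖p k‖ + ‖p k - q k‖ := by
    have := norm_sub_le (p k) (p k - q k)
    rwa [sub_sub_cancel] at this
  rw [hq1] at h2
  linarith [hC k]

theorem Seq.good_all {G : ℕ → E n → E n} {e : E n} (hG : Seq G e) (hn : 2 ≤ n) (m : ℕ) :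
    ∀ p : ℕ → E n, (∀ k, ‖p k‖ ≤ m) → Good G p ∧ ∃ C : ℝ, ∀ᶠ k in atTop, ‖G k (p k)‖ ≤ C := by
  induction m with
  | zero =>
    intro p hp
    have h1 : p = fun _ => 0 := by
      funext k
      have := hp k
      rw [Nat.cast_zero] at this
      exact norm_le_zero_iff.1 this
    rw [h1]
    refine ⟨hG.good_zero, 0, Eventually.of_forall fun k => ?_⟩
    rw [hG.zero]
    simp
  | succ m ih =>
    intro p hp
    obtain ⟨r, hr⟩ : ∃ r : ℕ → E n, r = fun k => ((m : ℝ) / (m + 1)) • p k := ⟨_, rfl⟩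
    have hm : (0 : ℝ) < (m : ℝ) + 1 := by positivity
    have h1 : ∀ k, ‖r k‖ ≤ m := by
      intro k
      rw [hr]
      simp only
      rw [norm_smul, Real.norm_eq_abs, abs_of_nonneg (by positivity)]
      have := hp k
      push_cast at this
      calc (m : ℝ) / (m + 1) * ‖p k‖ ≤ (m : ℝ) / (m + 1) * (m + 1) := by gcongr
        _ = m := by field_simp
    have h2 : ∀ k, ‖r k - p k‖ ≤ 2 := by
      intro k
      rw [hr]
      have h3 : ((m : ℝ) / (m + 1)) • p k - p k = (-(1 / ((m : ℝ) + 1))) • p k := by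
        have h4 : -(1 / ((m : ℝ) + 1)) = (m : ℝ) / (m + 1) - 1 := by field_simp; ring
        rw [h4, sub_smul _ 1, one_smul]
      simp only
      rw [h3, norm_smul, norm_neg, Real.norm_eq_abs, abs_of_pos (by positivity)]
      have := hp k
      push_cast at this
      calc 1 / ((m : ℝ) + 1) * ‖p k‖ ≤ 1 / ((m : ℝ) + 1) * (m + 1) := by gcongr
        _ = 1 := by field_simp
        _ ≤ 2 := by norm_num
    have hrB : Bd r := ⟨m, h1⟩
    have hpB : Bd p := ⟨(m + 1 : ℕ), hp⟩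
    obtain ⟨q, hqB, hq1, hq2⟩ := hrB.third hn h2
    obtain ⟨g1, C, hC⟩ := ih r h1
    have g2 := hG.good_edge hrB hqB g1 hq1
    refine ⟨hG.good_edge hqB hpB g2 hq2, C + 2 + 2, ?_⟩
    have t1 := g1 q hqB hq1
    have t2 := g2 p hpB hq2
    filter_upwards [hC, t1.eventually (gt_mem_nhds (show (1 : ℝ) < 2 by norm_num)),
      t2.eventually (gt_mem_nhds (show (1 : ℝ) < 2 by norm_num))] with k e1 e2 e3
    have e4 : ‖G k (p k)‖ ≤ ‖G k (r k)‖ + ‖G k (r k) - G k (q k)‖ + ‖G k (q k) - G k (p k)‖ := by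
      have h5 : G k (p k) = G k (r k) - (G k (r k) - G k (q k)) - (G k (q k) - G k (p k)) := by abel
      conv_lhs => rw [h5]
      exact (norm_sub_le _ _).trans (add_le_add_left (norm_sub_le _ _) _)
    linarith

theorem Seq.edge_all {G : ℕ → E n → E n} {e : E n} (hG : Seq G e) (hn : 2 ≤ n) {p q : ℕ → E n} (hp : Bd p)
    (hq : Bd q) (h : ∀ k, ‖p k - q k‖ = 1) : Tendsto (fun k => ‖G k (p k) - G k (q k)‖) atTop (𝓝 1) := by
  obtain ⟨C, hC⟩ := hp
  obtain ⟨m, hm⟩ := exists_nat_ge C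
  exact (hG.good_all hn m p fun k => (hC k).trans hm).1 q hq h

/-- the ultrafilter -/
abbrev UU : Filter ℕ := (hyperfilter ℕ : Filter ℕ)

theorem UU_le : UU ≤ atTop := Nat.hyperfilter_le_atTop

theorem Seq.lim {G : ℕ → E n → E n} {e : E n} (hG : Seq G e) (hn : 2 ≤ n) {p : ℕ → E n} (hp : Bd p) :
    ∃ y : E n, Tendsto (fun k => G k (p k)) UU (𝓝 y) := by
  obtain ⟨C, hC⟩ := hp
  obtain ⟨m, hm⟩ := exists_nat_ge C
  obtain ⟨C', hC'⟩ := (hG.good_all hn m p fun k => (hC k).trans hm).2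
  have h1 := (isCompact_closedBall (0 : E n) C').ultrafilter_le_nhds ((hyperfilter ℕ).map fun k => G k (p k)) (by
    rw [le_principal_iff]
    show ∀ᶠ k in UU, G k (p k) ∈ closedBall (0 : E n) C'
    filter_upwards [UU_le hC'] with k hk
    rw [mem_closedBall_zero_iff]
    exact hk)
  obtain ⟨y, _, hy⟩ := h1
  exact ⟨y, hy⟩

theorem Seq.const {G : ℕ → E n → E n} {e : E n} (hG : Seq G e) (hn : 2 ≤ n) {p q : ℕ → E n} (hp : Bd p)
    {a : ℝ} (ha : 0 ≤ a) (h : ∀ k, ‖p k - q k‖ = a) :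
    Tendsto (fun k => ‖G k (p k) - G k (q k)‖) UU (𝓝 a) := by
  have h1 : ∀ k, ∃ T : E n → E n, (∀ x y, ‖T x - T y‖ = ‖x - y‖) ∧ T 0 = p k ∧ T (a • e) = q k := by
    intro k
    refine exists_motion ?_
    rw [sub_zero, norm_smul, hG.e1, mul_one, Real.norm_eq_abs, abs_of_nonneg ha, norm_sub_rev, h k]
  choose T hT hT0 hT1 using h1
  obtain ⟨C, hC⟩ := hp
  have hB : ∀ z : E n, Bd fun k => T k z := by
    intro z
    refine ⟨‖z‖ + C, fun k => ?_⟩
    have h2 := norm_sub_le_norm_sub_add_norm_sub (T k z) (T k 0) 0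
    rw [hT, sub_zero, sub_zero, sub_zero, hT0] at h2
    linarith [hC k]
  have h2 : ∀ z : E n, ∃ y : E n, Tendsto (fun k => G k (T k z)) UU (𝓝 y) := fun z => hG.lim hn (hB z)
  choose g hg using h2
  have hP : Pres g 1 := by
    intro z z' hz
    have h3 : Tendsto (fun k => ‖G k (T k z) - G k (T k z')‖) UU (𝓝 ‖g z - g z'‖) := ((hg z).sub (hg z')).norm
    have h4 := (hG.edge_all hn (hB z) (hB z') fun k => by rw [hT]; exact hz).mono_left UU_le
    exact tendsto_nhds_unique h3 h4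
  have h3 := beckman_quarles hn (by simp) hP 0 (a • e)
  rw [zero_sub, norm_neg, norm_smul, hG.e1, mul_one, Real.norm_eq_abs, abs_of_nonneg ha] at h3
  have h4 : Tendsto (fun k => ‖G k (T k 0) - G k (T k (a • e))‖) UU (𝓝 ‖g 0 - g (a • e)‖) :=
    ((hg 0).sub (hg (a • e))).norm
  rw [h3] at h4
  refine h4.congr fun k => ?_
  rw [hT0, hT1]

theorem Seq.const' {G : ℕ → E n → E n} {e : E n} (hG : Seq G e) (hn : 2 ≤ n) {p q : ℕ → E n} (hp : Bd p)
    {a : ℝ} (ha : 0 ≤ a) (h : ∀ᶠ k in UU, ‖p k - q k‖ = a) :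
    Tendsto (fun k => ‖G k (p k) - G k (q k)‖) UU (𝓝 a) := by
  classical
  obtain ⟨q', hq'⟩ : ∃ q' : ℕ → E n, q' = fun k => if ‖p k - q k‖ = a then q k else p k - a • e := ⟨_, rfl⟩
  have h1 : ∀ k, ‖p k - q' k‖ = a := by
    intro k
    rw [hq']
    simp only
    split_ifs with h
    · exact h
    · rw [sub_sub_cancel, norm_smul, hG.e1, mul_one, Real.norm_eq_abs, abs_of_nonneg ha]
  refine (hG.const hn hp ha h1).congr' ?_
  filter_upwards [h] with k hk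
  rw [hq']
  simp only
  rw [if_pos hk]

theorem Seq.tozero {G : ℕ → E n → E n} {e : E n} (hG : Seq G e) (hn : 2 ≤ n) {p q : ℕ → E n} (hp : Bd p)
    (h : Tendsto (fun k => ‖p k - q k‖) UU (𝓝 0)) :
    Tendsto (fun k => ‖G k (p k) - G k (q k)‖) UU (𝓝 0) := by
  classical
  rw [tendsto_order]
  refine ⟨fun a ha => Eventually.of_forall fun k => ha.trans_le (norm_nonneg _), fun a ha => ?_⟩
  obtain ⟨η, hη⟩ : ∃ η : ℝ, η = a / 4 := ⟨_, rfl⟩
  have hη0 : 0 < η := by rw [hη]; positivity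
  have h1 : ∀ k, ∃ z : E n, ‖p k - q k‖ ≤ 2 * η → ‖p k - z‖ = η ∧ ‖z - q k‖ = η := by
    intro k
    by_cases hk : ‖p k - q k‖ ≤ 2 * η
    · obtain ⟨z, hz1, hz2⟩ := exists_third hn hη0.le hη0.le (p k) (q k) (by linarith)
        (by linarith [norm_nonneg (p k - q k)]) (by linarith [norm_nonneg (p k - q k)])
      exact ⟨z, fun _ => ⟨hz1, hz2⟩⟩
    · exact ⟨0, fun h' => absurd h' hk⟩
  choose z hz using h1
  obtain ⟨r, hr⟩ : ∃ r : ℕ → E n, r = fun k => if ‖p k - q k‖ ≤ 2 * η then z k else p k := ⟨_, rfl⟩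
  have hev : ∀ᶠ k in UU, ‖p k - q k‖ ≤ 2 * η := by
    filter_upwards [h.eventually (gt_mem_nhds (show (0 : ℝ) < 2 * η by positivity))] with k hk
    exact hk.le
  have hrp : ∀ᶠ k in UU, ‖p k - r k‖ = η := by
    filter_upwards [hev] with k hk
    rw [hr]
    simp only
    rw [if_pos hk]
    exact (hz k hk).1
  have hrq : ∀ᶠ k in UU, ‖r k - q k‖ = η := by
    filter_upwards [hev] with k hk
    rw [hr]
    simp only
    rw [if_pos hk]
    exact (hz k hk).2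
  have hrB : Bd r := by
    obtain ⟨C, hC⟩ := hp
    refine ⟨C + η, fun k => ?_⟩
    rw [hr]
    simp only
    split_ifs with hk
    · have h2 : ‖z k‖ ≤ ‖p k‖ + ‖p k - z k‖ := by
        have := norm_sub_le (p k) (p k - z k)
        rwa [sub_sub_cancel] at this
      rw [(hz k hk).1] at h2
      linarith [hC k]
    · linarith [hC k]
  have t1 := hG.const' hn hp hη0.le hrp
  have t2 := hG.const' hn hrB hη0.le hrq
  filter_upwards [t1.eventually (gt_mem_nhds (show η < 2 * η by linarith)),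
    t2.eventually (gt_mem_nhds (show η < 2 * η by linarith))] with k e1 e2
  have e3 := norm_sub_le_norm_sub_add_norm_sub (G k (p k)) (G k (r k)) (G k (q k))
  rw [hη] at e1 e2
  linarith

theorem Seq.all {G : ℕ → E n → E n} {e : E n} (hG : Seq G e) (hn : 2 ≤ n) {p q : ℕ → E n} (hp : Bd p)
    (hq : Bd q) {d : ℝ} (hd : 0 ≤ d) (h : Tendsto (fun k => ‖p k - q k‖) UU (𝓝 d)) :
    Tendsto (fun k => ‖G k (p k) - G k (q k)‖) UU (𝓝 d) := by
  rcases hd.eq_or_lt with h0 | h0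
  · rw [← h0] at h ⊢
    exact hG.tozero hn hp h
  · obtain ⟨q', hq'⟩ : ∃ q' : ℕ → E n, q' = fun k => p k - (d / ‖p k - q k‖) • (p k - q k) := ⟨_, rfl⟩
    have hev : ∀ᶠ k in UU, 0 < ‖p k - q k‖ := h.eventually (lt_mem_nhds h0)
    have h1 : ∀ᶠ k in UU, ‖p k - q' k‖ = d := by
      filter_upwards [hev] with k hk
      rw [hq']
      simp only
      rw [sub_sub_cancel, norm_smul, Real.norm_eq_abs, abs_of_pos (by positivity)]
      field_simp
    have h2 : Tendsto (fun k => ‖q k - q' k‖) UU (𝓝 0) := by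
      have h3 : Tendsto (fun k => |d - ‖p k - q k‖|) UU (𝓝 0) := by
        have h4 := (h.const_sub d).abs
        rwa [sub_self, abs_zero] at h4
      refine h3.congr' ?_
      filter_upwards [hev] with k hk
      rw [hq']
      simp only
      have h5 : q k - (p k - (d / ‖p k - q k‖) • (p k - q k)) = (d / ‖p k - q k‖ - 1) • (p k - q k) := by
        module
      have h6 : d - ‖p k - q k‖ = (d / ‖p k - q k‖ - 1) * ‖p k - q k‖ := by
        field_simp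
      rw [h5, norm_smul, Real.norm_eq_abs, h6, abs_mul, abs_of_pos hk]
    have t1 := hG.const' hn hp hd h1
    have t2 := hG.tozero hn hq h2
    have t3 : Tendsto (fun k => ‖G k (p k) - G k (q k)‖ - ‖G k (p k) - G k (q' k)‖) UU (𝓝 0) := by
      refine squeeze_zero_norm (fun k => ?_) t2
      rw [Real.norm_eq_abs]
      refine (abs_norm_sub_norm_le _ _).trans_eq ?_
      rw [sub_sub_sub_cancel_left, norm_sub_rev]
    have t4 := t3.add t1
    simpa using t4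

/-- **Nearly round unit spheres.** -/
theorem near (n : ℕ) (hn : 2 ≤ n) {ε : ℝ} (hε : 0 < ε) (R : ℝ) : ∃ δ : ℝ, 0 < δ ∧ ∃ R' : ℝ, 0 < R' ∧
    ∀ F : E n → E n, (∀ u v w : E n, ‖u‖ ≤ R' → ‖v‖ ≤ R' → ‖w‖ ≤ R' → ‖u - v‖ = 1 → ‖u - w‖ = 1 →
      ‖F u - F v‖ < (1 + δ) * ‖F u - F w‖) →
    ∃ κ : ℝ, 0 ≤ κ ∧ ∀ u w : E n, ‖u‖ ≤ R → ‖w‖ ≤ R → |κ * ‖F u - F w‖ - ‖u - w‖| ≤ ε := by
  by_contra hcon
  push Not at hcon
  have h1 : ∀ k : ℕ, ∃ F : E n → E n, (∀ u v w : E n, ‖u‖ ≤ (k : ℝ) + 1 → ‖v‖ ≤ (k : ℝ) + 1 → ‖w‖ ≤ (k : ℝ) + 1 →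
      ‖u - v‖ = 1 → ‖u - w‖ = 1 → ‖F u - F v‖ < (1 + 1 / ((k : ℝ) + 1)) * ‖F u - F w‖) ∧
      ∀ κ : ℝ, 0 ≤ κ → ∃ u w : E n, ‖u‖ ≤ R ∧ ‖w‖ ≤ R ∧ ε < |κ * ‖F u - F w‖ - ‖u - w‖| := fun k =>
    hcon (1 / ((k : ℝ) + 1)) (by positivity) ((k : ℝ) + 1) (by positivity)
  choose F hF1 hF2 using h1
  obtain ⟨e, he⟩ : ∃ e : E n, ‖e‖ = 1 := ⟨EuclideanSpace.single ⟨0, by omega⟩ (1 : ℝ), by simp⟩
  obtain ⟨c, hc⟩ : ∃ c : ℕ → ℝ, ∀ k, c k = ‖F k 0 - F k e‖ := ⟨_, fun _ => rfl⟩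
  have hc0 : ∀ k, 0 < c k := by
    intro k
    have hk : (0 : ℝ) ≤ k := Nat.cast_nonneg k
    have h2 := hF1 k 0 e e (by rw [norm_zero]; positivity) (by rw [he]; linarith) (by rw [he]; linarith)
      (by rw [zero_sub, norm_neg, he]) (by rw [zero_sub, norm_neg, he])
    rw [← hc] at h2
    have h3 : 0 ≤ c k := by rw [hc]; exact norm_nonneg _
    rcases h3.eq_or_lt with h4 | h4
    · rw [← h4] at h2; simp at h2
    · exact h4
  obtain ⟨G, hGd⟩ : ∃ G : ℕ → E n → E n, ∀ k x, G k x = (c k)⁻¹ • (F k x - F k 0) := ⟨_, fun _ _ => rfl⟩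
  have hGn : ∀ k x y, ‖G k x - G k y‖ = (c k)⁻¹ * ‖F k x - F k y‖ := by
    intro k x y
    rw [hGd, hGd, ← smul_sub, sub_sub_sub_cancel_right, norm_smul, Real.norm_eq_abs,
      abs_of_pos (inv_pos.2 (hc0 k))]
  have hG : Seq G e := by
    refine ⟨fun C => ?_, fun k => ?_, fun k => ?_, he⟩
    · obtain ⟨m, hm⟩ := exists_nat_ge C
      filter_upwards [eventually_ge_atTop m] with k hk u v w hu hv hw h2 h3
      have hk' : (m : ℝ) ≤ k := by exact_mod_cast hk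
      have h4 := hF1 k u v w (by linarith) (by linarith) (by linarith) h2 h3
      rw [hGn, hGn]
      have h5 : 0 < (c k)⁻¹ := inv_pos.2 (hc0 k)
      calc (c k)⁻¹ * ‖F k u - F k v‖ ≤ (c k)⁻¹ * ((1 + 1 / ((k : ℝ) + 1)) * ‖F k u - F k w‖) :=
            mul_le_mul_of_nonneg_left h4.le h5.le
        _ = (1 + 1 / ((k : ℝ) + 1)) * ((c k)⁻¹ * ‖F k u - F k w‖) := by ring
    · rw [hGd]; simp
    · rw [hGn, ← hc, inv_mul_cancel₀ (hc0 k).ne']
  have h2 : ∀ k, ∃ u w : E n, ‖u‖ ≤ R ∧ ‖w‖ ≤ R ∧ ε < |(c k)⁻¹ * ‖F k u - F k w‖ - ‖u - w‖| := fun k =>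
    hF2 k _ (inv_pos.2 (hc0 k)).le
  choose u w hu hw huw using h2
  have hd : ∃ d ∈ Icc (0 : ℝ) (2 * R), Tendsto (fun k => ‖u k - w k‖) UU (𝓝 d) := by
    have h3 := (isCompact_Icc (a := (0 : ℝ)) (b := 2 * R)).ultrafilter_le_nhds
      ((hyperfilter ℕ).map fun k => ‖u k - w k‖) (by
        rw [le_principal_iff]
        show ∀ᶠ k in UU, ‖u k - w k‖ ∈ Icc (0 : ℝ) (2 * R)
        refine Eventually.of_forall fun k => ⟨norm_nonneg _, ?_⟩
        have := norm_sub_le (u k) (w k)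
        linarith [hu k, hw k])
    obtain ⟨d, hd, hd2⟩ := h3
    exact ⟨d, hd, hd2⟩
  obtain ⟨d, hd, hd2⟩ := hd
  have h3 := hG.all hn ⟨R, hu⟩ ⟨R, hw⟩ hd.1 hd2
  have h4 := (h3.sub hd2).abs
  rw [sub_self, abs_zero] at h4
  obtain ⟨k, hk⟩ := (h4.eventually (gt_mem_nhds hε)).exists
  have h5 := huw k
  rw [← hGn] at h5
  linarith

/-- unit vectors orthogonal to two given vectors -/
theorem exists_orth (hn : 3 ≤ n) (a b : E n) : ∃ w : E n, ‖w‖ = 1 ∧ inner ℝ a w = 0 ∧ inner ℝ b w = 0 := by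
  classical
  obtain ⟨K, hK⟩ : ∃ K : Submodule ℝ (E n), K = Submodule.span ℝ (({a, b} : Finset (E n)) : Set (E n)) := ⟨_, rfl⟩
  have h1 : Module.finrank ℝ K ≤ 2 := by
    rw [hK]
    exact (finrank_span_finset_le_card _).trans Finset.card_le_two
  have h2 := K.finrank_add_finrank_orthogonal
  rw [finrank_euclideanSpace_fin] at h2
  have h3 : 0 < Module.finrank ℝ Kᗮ := by omega
  have : Nontrivial Kᗮ := Module.finrank_pos_iff.1 h3
  obtain ⟨⟨w, hw⟩, hw0⟩ := exists_ne (0 : Kᗮ)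
  have hw1 : w ≠ 0 := fun h => hw0 (Subtype.ext h)
  have hwn : 0 < ‖w‖ := norm_pos_iff.2 hw1
  have ha : a ∈ K := by rw [hK]; exact Submodule.subset_span (by simp)
  have hb : b ∈ K := by rw [hK]; exact Submodule.subset_span (by simp)
  refine ⟨‖w‖⁻¹ • w, ?_, ?_, ?_⟩
  · rw [norm_smul, norm_inv, norm_norm, inv_mul_cancel₀ hwn.ne']
  · rw [real_inner_smul_right, (Submodule.mem_orthogonal K w).1 hw a ha, mul_zero]
  · rw [real_inner_smul_right, (Submodule.mem_orthogonal K w).1 hw b hb, mul_zero]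

/-- two unit vectors with inner product one half have distance one -/
theorem dist_of_half {a b : E n} (ha : ‖a‖ = 1) (hb : ‖b‖ = 1) (h : inner ℝ a b = 1 / 2) : ‖a - b‖ = 1 := by
  have h1 : ‖a - b‖ ^ 2 = 1 ^ 2 := by
    rw [norm_sub_sq_real, ha, hb, h]; norm_num
  exact (sq_eq_sq₀ (norm_nonneg _) zero_le_one).1 h1

/-- one can go from each unit vector to each other one by three steps of length one on the unit sphere -/
theorem sphere_chain (hn : 3 ≤ n) {a b : E n} (ha : ‖a‖ = 1) (hb : ‖b‖ = 1) :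
    ∃ c d : E n, ‖c‖ = 1 ∧ ‖d‖ = 1 ∧ ‖a - c‖ = 1 ∧ ‖c - d‖ = 1 ∧ ‖d - b‖ = 1 := by
  have h3 : √3 ^ 2 = (3 : ℝ) := Real.sq_sqrt (by norm_num)
  have h30 : 0 < √(3 : ℝ) := by positivity
  -- the first step
  obtain ⟨c, hc, hac, hcb⟩ : ∃ c : E n, ‖c‖ = 1 ∧ inner ℝ a c = 1 / 2 ∧ -(1 / 2) ≤ inner ℝ c b := by
    have key : ∀ w : E n, ‖w‖ = 1 → inner ℝ a w = 0 → 0 ≤ inner ℝ w b →
        ∃ c : E n, ‖c‖ = 1 ∧ inner ℝ a c = 1 / 2 ∧ -(1 / 2) ≤ inner ℝ c b := by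
      intro w hw haw hwb
      refine ⟨(1 / 2 : ℝ) • a + (√3 / 2) • w, ?_, ?_, ?_⟩
      · have h1 : ‖(1 / 2 : ℝ) • a + (√3 / 2) • w‖ ^ 2 = 1 ^ 2 := by
          rw [norm_add_sq_real, real_inner_smul_left, real_inner_smul_right, haw, norm_smul, norm_smul, ha, hw,
            Real.norm_eq_abs, Real.norm_eq_abs, abs_of_pos (by norm_num : (0 : ℝ) < 1 / 2),
            abs_of_pos (by positivity : 0 < √(3 : ℝ) / 2)]
          ring_nf
          rw [h3]
          norm_num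
        exact (sq_eq_sq₀ (norm_nonneg _) zero_le_one).1 h1
      · rw [inner_add_right, real_inner_smul_right, real_inner_smul_right, haw, real_inner_self_eq_norm_sq, ha]
        norm_num
      · rw [inner_add_left, real_inner_smul_left, real_inner_smul_left]
        have h1 : -1 ≤ inner ℝ a b := by
          have := neg_le_of_abs_le (abs_real_inner_le_norm a b)
          rw [ha, hb] at this
          linarith
        have h2 : 0 ≤ √3 / 2 * inner ℝ w b := by positivity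
        linarith
    obtain ⟨w, hw, haw, -⟩ := exists_orth hn a a
    rcases le_total 0 (inner ℝ w b) with h | h
    · exact key w hw haw h
    · refine key (-w) (by rw [norm_neg, hw]) (by rw [inner_neg_right, haw, neg_zero]) ?_
      rw [inner_neg_left]
      linarith
  -- the second step
  obtain ⟨w, hw, hcw, hbw⟩ := exists_orth hn c b
  obtain ⟨t, ht⟩ : ∃ t : ℝ, t = inner ℝ c b := ⟨_, rfl⟩
  rw [← ht] at hcb
  have ht1 : 0 < 1 + t := by linarith
  obtain ⟨l, hl⟩ : ∃ l : ℝ, l = 1 / (2 * (1 + t)) := ⟨_, rfl⟩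
  have hl1 : l * (1 + t) = 1 / 2 := by rw [hl]; field_simp
  have hl2 : l ≤ 1 := by
    rw [hl, div_le_one (by positivity)]
    linarith
  have hl0 : 0 < l := by rw [hl]; positivity
  obtain ⟨μ, hμ⟩ : ∃ μ : ℝ, μ = √(1 - l) := ⟨_, rfl⟩
  have hμ2 : μ ^ 2 = 1 - l := by rw [hμ, Real.sq_sqrt (by linarith)]
  obtain ⟨d, hd⟩ : ∃ d : E n, d = l • (c + b) + μ • w := ⟨_, rfl⟩
  have hwc : inner ℝ w c = 0 := by rw [real_inner_comm]; exact hcw
  have hwb : inner ℝ w b = 0 := by rw [real_inner_comm]; exact hbw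
  have hcd : inner ℝ c d = 1 / 2 := by
    rw [hd, inner_add_right, real_inner_smul_right, real_inner_smul_right, inner_add_right, hcw,
      real_inner_self_eq_norm_sq, hc, ← ht]
    linarith
  have hdb : inner ℝ d b = 1 / 2 := by
    rw [hd, inner_add_left, real_inner_smul_left, real_inner_smul_left, inner_add_left, hwb,
      real_inner_self_eq_norm_sq, hb, ← ht]
    linarith
  have hdn : ‖d‖ = 1 := by
    have h1 : ‖d‖ ^ 2 = 1 ^ 2 := by
      have h4 : inner ℝ (l • (c + b)) (μ • w) = 0 := by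
        rw [real_inner_smul_left, real_inner_smul_right, inner_add_left, hcw, hbw]
        ring
      have h5 : ‖c + b‖ ^ 2 = 2 * (1 + t) := by
        rw [norm_add_sq_real, hc, hb, ← ht]; ring
      rw [hd, norm_add_sq_real, h4, norm_smul, norm_smul, mul_pow, mul_pow, h5, hw, Real.norm_eq_abs,
        Real.norm_eq_abs, sq_abs, sq_abs, hμ2]
      have h6 : l ^ 2 * (2 * (1 + t)) = l := by
        have : l ^ 2 * (2 * (1 + t)) = 2 * l * (l * (1 + t)) := by ring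
        rw [this, hl1]; ring
      rw [h6]
      ring
    exact (sq_eq_sq₀ (norm_nonneg _) zero_le_one).1 h1
  exact ⟨c, d, hc, hdn, dist_of_half ha hc hac, dist_of_half hc hdn hcd, dist_of_half hdn hb hdb⟩

/-- **Nearly equilateral triangles.** -/
theorem near3 (n : ℕ) (hn : 3 ≤ n) {ε : ℝ} (hε : 0 < ε) (R : ℝ) : ∃ δ : ℝ, 0 < δ ∧ ∃ R' : ℝ, 0 < R' ∧
    ∀ F : E n → E n, (∀ u v w : E n, ‖u‖ ≤ R' → ‖v‖ ≤ R' → ‖w‖ ≤ R' → ‖u - v‖ = 1 → ‖u - w‖ = 1 → ‖v - w‖ = 1 →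
      ‖F u - F v‖ < (1 + δ) * ‖F u - F w‖) →
    ∃ κ : ℝ, 0 ≤ κ ∧ ∀ u w : E n, ‖u‖ ≤ R → ‖w‖ ≤ R → |κ * ‖F u - F w‖ - ‖u - w‖| ≤ ε := by
  obtain ⟨δ1, hδ1, R1, hR1, H⟩ := near n (by omega) hε R
  obtain ⟨δ, hδd⟩ : ∃ δ : ℝ, δ = min 1 (δ1 / 7) := ⟨_, rfl⟩
  have hδ : 0 < δ := by rw [hδd]; positivity
  have hδ1' : δ ≤ 1 := by rw [hδd]; exact min_le_left _ _
  have hδ7 : δ ≤ δ1 / 7 := by rw [hδd]; exact min_le_right _ _
  refine ⟨δ, hδ, R1 + 1, by positivity, fun F hF => H F fun u v w hu hv hw huv huw => ?_⟩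
  obtain ⟨c, d, hc, hd, h1, h2, h3⟩ := sphere_chain hn (a := v - u) (b := w - u)
    (by rw [norm_sub_rev]; exact huv) (by rw [norm_sub_rev]; exact huw)
  have hnorm : ∀ z : E n, ‖z‖ = 1 → ‖u + z‖ ≤ R1 + 1 := fun z hz => (norm_add_le _ _).trans (by rw [hz]; linarith)
  have hun : ∀ z : E n, ‖z‖ = 1 → ‖u - (u + z)‖ = 1 := fun z hz => by rw [sub_add_cancel_left, norm_neg, hz]
  have a1 := hF u v (u + c) (by linarith) (by linarith) (hnorm c hc) huv (hun c hc) (by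
    rw [← h1]
    congr 1
    abel)
  have a2 := hF u (u + c) (u + d) (by linarith) (hnorm c hc) (hnorm d hd) (hun c hc) (hun d hd) (by
    rw [← h2]
    congr 1
    abel)
  have a3 := hF u (u + d) w (by linarith) (hnorm d hd) (by linarith) (hun d hd) huw (by
    rw [← h3]
    congr 1
    abel)
  have h4 : (1 + δ) * ((1 + δ) * (1 + δ)) ≤ 1 + δ1 := by
    have e1 : δ * δ ≤ δ := by nlinarith
    have e2 : δ * δ * δ ≤ δ := by nlinarith
    have e3 : (1 + δ) * ((1 + δ) * (1 + δ)) = 1 + 3 * δ + 3 * (δ * δ) + δ * δ * δ := by ring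
    linarith
  have hp : 0 < 1 + δ := by linarith
  calc ‖F u - F v‖ < (1 + δ) * ‖F u - F (u + c)‖ := a1
    _ ≤ (1 + δ) * ((1 + δ) * ‖F u - F (u + d)‖) := mul_le_mul_of_nonneg_left a2.le hp.le
    _ ≤ (1 + δ) * ((1 + δ) * ((1 + δ) * ‖F u - F w‖)) := by
        refine mul_le_mul_of_nonneg_left (mul_le_mul_of_nonneg_left a3.le hp.le) hp.le
    _ = ((1 + δ) * ((1 + δ) * (1 + δ))) * ‖F u - F w‖ := by ring
    _ ≤ (1 + δ1) * ‖F u - F w‖ := mul_le_mul_of_nonneg_right h4 (norm_nonneg _)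

end Pool.Agent.H33.NC
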