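import Pool.Agent.H33.NC.Near
import Pool.Graph.R_pool_sql_team_seeded_620a6dc7.H865_cl.Closed

/-!
# Maps between manifolds which map small equilateral triangles to nearly equilateral ones are coarse similarities
-/

set_option autoImplicit false

open Set Filter Topology Metric Function
open scoped Manifold ContDiff

noncomputable section

namespace Pool.Agent.H33.NC

open Pool.Agent.Y522 (LD)
open Pool.Agent.H865_small (Imm CS exists_iso iso_norm exists_chartB imm_smooth)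

variable {n m k : ℕ} {X Y : Type} [TopologicalSpace X] [ChartedSpace (E n) X] [TopologicalSpace Y]
  [ChartedSpace (E n) Y]

/-- almost isometric parametrizations -/
theorem exists_param [IsManifold (𝓡 n) ∞ X] {e : X → E m} {x : X} (he : Imm (n := n) e x) {θ : ℝ} (hθ : 0 < θ) :
    ∃ A : E n → X, A 0 = x ∧ (∀ z, LD n A z) ∧ ∃ t : ℝ, 0 < t ∧ ∀ z z' : E n, ‖z‖ < t → ‖z'‖ < t →
      |‖e (A z) - e (A z')‖ - ‖z - z'‖| ≤ θ * ‖z - z'‖ := by
  obtain ⟨B, hB0, -, hB⟩ := exists_chartB (n := n) x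
  obtain ⟨hs, hi⟩ := imm_smooth (n := n) (e := e) (B := B) (z := 0) (by rw [hB0]; exact he) (hB 0)
  obtain ⟨S, hS⟩ := exists_iso hi
  have hSn := iso_norm hS
  refine ⟨fun z => B (S.symm z), by simp [hB0], fun z => ?_, ?_⟩
  · exact Pool.Agent.Y522.LD.comp_fun (hB _) (Pool.Agent.Y522.LD_linear S.symm z)
  · have h1 : HasStrictFDerivAt (fun z => e (B z)) (fderiv ℝ (fun z => e (B z)) 0) (S.symm 0) := by
      rw [map_zero]
      exact hs.hasStrictFDerivAt (by simp)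
    have h2 : HasStrictFDerivAt (fun z => e (B (S.symm z)))
        ((fderiv ℝ (fun z => e (B z)) 0).comp (S.symm : E n →L[ℝ] E n)) 0 :=
      h1.comp (0 : E n) S.symm.hasStrictFDerivAt
    have h3 := h2.isLittleO.bound hθ
    rw [Metric.eventually_nhds_iff] at h3
    obtain ⟨t, ht, h4⟩ := h3
    refine ⟨t, ht, fun z z' hz hz' => ?_⟩
    have h5 := h4 (y := (z, z')) (by
      rw [Prod.dist_eq]
      exact max_lt (by simpa using hz) (by simpa using hz'))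
    simp only [ContinuousLinearMap.comp_apply] at h5
    have h6 : ‖fderiv ℝ (fun z => e (B z)) 0 ((S.symm : E n →L[ℝ] E n) (z - z'))‖ = ‖z - z'‖ := by
      rw [hSn]
      show ‖S (S.symm (z - z'))‖ = ‖z - z'‖
      rw [ContinuousLinearEquiv.apply_symm_apply]
    rw [← h6]
    refine (abs_norm_sub_norm_le _ _).trans ?_
    rw [h6]
    exact h5

/-- near `x` the images of the triangles with sides about `s`, for `s ∈ S`, are nearly equilateral -/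
def Equi (e : X → E m) (f : X → E k) (S : Set ℝ) (δ : ℝ) (x : X) : Prop :=
  ∃ U ∈ 𝓝 x, ∃ r : ℝ, 0 < r ∧ ∃ τ : ℝ, 0 < τ ∧ ∀ s ∈ S, 0 < s → s < r → ∀ u ∈ U, ∀ v ∈ U, ∀ w ∈ U,
    |‖e u - e v‖ - s| ≤ τ * s → |‖e u - e w‖ - s| ≤ τ * s → |‖e v - e w‖ - s| ≤ τ * s →
      ‖f u - f v‖ < (1 + δ) * ‖f u - f w‖

theorem cs_of_equi (n : ℕ) (hn : 3 ≤ n) {ε : ℝ} (hε : 0 < ε) : ∃ δ : ℝ, 0 < δ ∧
    ∀ (m k : ℕ) (X Y : Type) [TopologicalSpace X] [ChartedSpace (E n) X] [TopologicalSpace Y] [ChartedSpace (E n) Y]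
      [IsManifold (𝓡 n) ∞ X] [IsManifold (𝓡 n) ∞ Y] (e : X → E m) (j : Y → E k) (g : X → Y) (x : X) (S : Set ℝ),
      Imm (n := n) e x → Imm (n := n) j (g x) → ContinuousAt g x → Equi e (fun y => j (g y)) S δ x →
      CS e (fun y => j (g y)) S ε x := by
  obtain ⟨δ0, hδ0, R, hR, hnear⟩ := near3 n hn (show 0 < ε / 2 by positivity) 2
  refine ⟨δ0 / 2, by positivity, ?_⟩
  intro m k X Y _ _ _ _ _ _ e j g x S he hj hg hround
  obtain ⟨U0, hU0, r0, hr0, τ, hτ, hrd⟩ := hround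
  obtain ⟨θ, hθd⟩ : ∃ θ : ℝ, θ = min (min τ (1 / 2)) (min (δ0 / (4 + 3 * δ0)) (ε / (2 * (8 + ε)))) := ⟨_, rfl⟩
  have hθ : 0 < θ := by rw [hθd]; positivity
  have hθτ : θ ≤ τ := by rw [hθd]; exact (min_le_left _ _).trans (min_le_left _ _)
  have hθh : θ ≤ 1 / 2 := by rw [hθd]; exact (min_le_left _ _).trans (min_le_right _ _)
  have hθδ : θ * (4 + 3 * δ0) ≤ δ0 := by
    have : θ ≤ δ0 / (4 + 3 * δ0) := by rw [hθd]; exact (min_le_right _ _).trans (min_le_left _ _)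
    rwa [le_div_iff₀ (by positivity)] at this
  have hθε : θ * (2 * (8 + ε)) ≤ ε := by
    have : θ ≤ ε / (2 * (8 + ε)) := by rw [hθd]; exact (min_le_right _ _).trans (min_le_right _ _)
    rwa [le_div_iff₀ (by positivity)] at this
  obtain ⟨A, hA0, hA, t1, ht1, hAe⟩ := exists_param (n := n) he hθ
  obtain ⟨B, hB0, hB, t2, ht2, hBj⟩ := exists_param (n := n) hj hθ
  -- the map in the parametrizations
  have hev : ∀ᶠ z in 𝓝 (0 : E n), A z ∈ U0 ∧ g (A z) ∈ B '' ball 0 t2 := by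
    have h1 : Tendsto A (𝓝 0) (𝓝 x) := by
      have := (hA 0).continuousAt.tendsto
      rwa [hA0] at this
    have h2 : B '' ball 0 t2 ∈ 𝓝 (g x) := by
      have := (hB 0).image_mem_nhds (ball_mem_nhds (0 : E n) ht2)
      rwa [hB0] at this
    exact (h1.eventually hU0).and ((hg.tendsto.comp h1).eventually h2)
  obtain ⟨ρ', hρ', hρ'2⟩ := Metric.eventually_nhds_iff.1 hev
  obtain ⟨ρ, hρd⟩ : ∃ ρ : ℝ, ρ = min ρ' t1 := ⟨_, rfl⟩
  have hρ : 0 < ρ := by rw [hρd]; exact lt_min hρ' ht1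
  have hin : ∀ z : E n, ‖z‖ < ρ → A z ∈ U0 ∧ ∃ y : E n, ‖y‖ < t2 ∧ B y = g (A z) := by
    intro z hz
    have h1 := hρ'2 (y := z) (by rw [dist_zero_right]; exact hz.trans_le (by rw [hρd]; exact min_le_left _ _))
    obtain ⟨h2, y, hy, hy2⟩ := h1
    exact ⟨h2, y, mem_ball_zero_iff.1 hy, hy2⟩
  have hex : ∀ z : E n, ∃ y : E n, ‖z‖ < ρ → ‖y‖ < t2 ∧ B y = g (A z) := by
    intro z
    by_cases hz : ‖z‖ < ρ
    · obtain ⟨y, hy⟩ := (hin z hz).2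
      exact ⟨y, fun _ => hy⟩
    · exact ⟨0, fun h => absurd h hz⟩
  choose h hh using hex
  have hAe' : ∀ z z' : E n, ‖z‖ < ρ → ‖z'‖ < ρ → |‖e (A z) - e (A z')‖ - ‖z - z'‖| ≤ θ * ‖z - z'‖ := by
    intro z z' hz hz'
    refine hAe z z' (hz.trans_le ?_) (hz'.trans_le ?_) <;> rw [hρd] <;> exact min_le_right _ _
  have hfh : ∀ z z' : E n, ‖z‖ < ρ → ‖z'‖ < ρ →
      |‖j (g (A z)) - j (g (A z'))‖ - ‖h z - h z'‖| ≤ θ * ‖h z - h z'‖ := by
    intro z z' hz hz'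
    obtain ⟨h1, h2⟩ := hh z hz
    obtain ⟨h3, h4⟩ := hh z' hz'
    rw [← h2, ← h4]
    exact hBj _ _ h1 h3
  refine ⟨A '' ball 0 (ρ / 2), ?_, min r0 (ρ / (4 * (R + 1))), lt_min hr0 (by positivity), ?_⟩
  · have := (hA 0).image_mem_nhds (ball_mem_nhds (0 : E n) (show 0 < ρ / 2 by positivity))
    rwa [hA0] at this
  rintro y ⟨ζ, hζ, rfl⟩ s hs hs0 hsr
  rw [mem_ball_zero_iff] at hζ
  have hsr0 : s < r0 := hsr.trans_le (min_le_left _ _)
  have hsρ : s * R ≤ ρ / 4 := by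
    have h1 : s ≤ ρ / (4 * (R + 1)) := (hsr.trans_le (min_le_right _ _)).le
    have h2 : s * (4 * (R + 1)) ≤ ρ := by rwa [le_div_iff₀ (by positivity)] at h1
    nlinarith
  have hball : ∀ p : E n, ‖p‖ ≤ R → ‖ζ + s • p‖ < ρ := by
    intro p hp
    have h1 : ‖ζ + s • p‖ ≤ ‖ζ‖ + s * R := by
      refine (norm_add_le _ _).trans ?_
      rw [norm_smul, Real.norm_eq_abs, abs_of_pos hs0]
      gcongr
    linarith
  obtain ⟨κ, hκ, hκ2⟩ := hnear (fun p => h (ζ + s • p)) (by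
    intro u v w hu hv hw huv huw hvw
    have hdist : ∀ p q : E n, ‖p‖ ≤ R → ‖q‖ ≤ R → ‖p - q‖ = 1 →
        |‖e (A (ζ + s • p)) - e (A (ζ + s • q))‖ - s| ≤ τ * s := by
      intro p q hp hq hpq
      have h1 := hAe' _ _ (hball p hp) (hball q hq)
      have h2 : ‖ζ + s • p - (ζ + s • q)‖ = s := by
        rw [add_sub_add_left_eq_sub, ← smul_sub, norm_smul, hpq, mul_one, Real.norm_eq_abs, abs_of_pos hs0]
      rw [h2] at h1
      exact h1.trans (mul_le_mul_of_nonneg_right hθτ hs0.le)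
    have h1 := hrd s hs hs0 hsr0 _ (hin _ (hball u hu)).1 _ (hin _ (hball v hv)).1 _ (hin _ (hball w hw)).1
      (hdist u v hu hv huv) (hdist u w hu hw huw) (hdist v w hv hw hvw)
    have h2 := (abs_le.1 (hfh _ _ (hball u hu) (hball v hv))).1
    have h3 := (abs_le.1 (hfh _ _ (hball u hu) (hball w hw))).2
    obtain ⟨a, ha⟩ : ∃ a : ℝ, a = ‖h (ζ + s • u) - h (ζ + s • v)‖ := ⟨_, rfl⟩
    obtain ⟨b, hb⟩ : ∃ b : ℝ, b = ‖h (ζ + s • u) - h (ζ + s • w)‖ := ⟨_, rfl⟩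
    rw [← ha] at h2 ⊢
    rw [← hb] at h3 ⊢
    have hb0 : 0 ≤ b := by rw [hb]; exact norm_nonneg _
    have h4 : (1 - θ) * a < (1 + δ0 / 2) * ((1 + θ) * b) := by
      have h5 : (1 + δ0 / 2) * ‖j (g (A (ζ + s • u))) - j (g (A (ζ + s • w)))‖ ≤ (1 + δ0 / 2) * ((1 + θ) * b) := by
        refine mul_le_mul_of_nonneg_left ?_ (by positivity)
        linarith
      linarith
    have h5 : (1 + δ0 / 2) * ((1 + θ) * b) ≤ (1 - θ) * ((1 + δ0) * b) := by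
      have h6 : (1 + δ0 / 2) * (1 + θ) ≤ (1 - θ) * (1 + δ0) := by nlinarith
      calc (1 + δ0 / 2) * ((1 + θ) * b) = ((1 + δ0 / 2) * (1 + θ)) * b := by ring
        _ ≤ ((1 - θ) * (1 + δ0)) * b := mul_le_mul_of_nonneg_right h6 hb0
        _ = _ := by ring
    exact lt_of_mul_lt_mul_left (h4.trans_le h5) (by linarith))
  refine ⟨κ * s, by positivity, ?_⟩
  rintro u ⟨zu, hzu, rfl⟩ w ⟨zw, hzw, rfl⟩ hu hw
  rw [mem_ball_zero_iff] at hzu hzw
  have hζρ : ‖ζ‖ < ρ := by linarith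
  have hzuρ : ‖zu‖ < ρ := by linarith
  have hzwρ : ‖zw‖ < ρ := by linarith
  have hcl : ∀ z : E n, ‖z‖ < ρ → ‖e (A z) - e (A ζ)‖ ≤ s → ‖z - ζ‖ ≤ 2 * s := by
    intro z hz hze
    have h1 := (abs_le.1 (hAe' z ζ hz hζρ)).1
    nlinarith [norm_nonneg (z - ζ)]
  have hzu2 := hcl zu hzuρ hu
  have hzw2 := hcl zw hzwρ hw
  have hp : ∀ z : E n, ‖z - ζ‖ ≤ 2 * s → ‖s⁻¹ • (z - ζ)‖ ≤ 2 := by
    intro z hz
    rw [norm_smul, Real.norm_eq_abs, abs_of_pos (inv_pos.2 hs0)]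
    calc s⁻¹ * ‖z - ζ‖ ≤ s⁻¹ * (2 * s) := by gcongr
      _ = 2 := by field_simp
  have hpz : ∀ z : E n, ζ + s • s⁻¹ • (z - ζ) = z := by
    intro z
    rw [smul_smul, mul_inv_cancel₀ hs0.ne', one_smul]
    abel
  have h1 := hκ2 _ _ (hp zu hzu2) (hp zw hzw2)
  rw [hpz, hpz, ← smul_sub, sub_sub_sub_cancel_right, norm_smul, Real.norm_eq_abs, abs_of_pos (inv_pos.2 hs0)] at h1
  have h2 : |κ * s * ‖h zu - h zw‖ - ‖zu - zw‖| ≤ ε / 2 * s := by
    have h3 : κ * s * ‖h zu - h zw‖ - ‖zu - zw‖ = s * (κ * ‖h zu - h zw‖ - s⁻¹ * ‖zu - zw‖) := by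
      field_simp
    rw [h3, abs_mul, abs_of_pos hs0, mul_comm (ε / 2)]
    exact mul_le_mul_of_nonneg_left h1 hs0.le
  have h3 := hfh zu zw hzuρ hzwρ
  have h4 := hAe' zu zw hzuρ hzwρ
  have h5 : ‖zu - zw‖ ≤ 4 * s := by
    have h6 := norm_sub_le_norm_sub_add_norm_sub zu ζ zw
    rw [norm_sub_rev ζ zw] at h6
    linarith
  have h6 : κ * s * ‖h zu - h zw‖ ≤ (4 + ε / 2) * s := by
    have := (abs_le.1 h2).2
    linarith
  have h7 : |κ * s * ‖j (g (A zu)) - j (g (A zw))‖ - κ * s * ‖h zu - h zw‖| ≤ θ * ((4 + ε / 2) * s) := by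
    rw [← mul_sub, abs_mul, abs_of_nonneg (by positivity : 0 ≤ κ * s)]
    calc κ * s * |‖j (g (A zu)) - j (g (A zw))‖ - ‖h zu - h zw‖| ≤ κ * s * (θ * ‖h zu - h zw‖) :=
          mul_le_mul_of_nonneg_left h3 (by positivity)
      _ = θ * (κ * s * ‖h zu - h zw‖) := by ring
      _ ≤ θ * ((4 + ε / 2) * s) := mul_le_mul_of_nonneg_left h6 hθ.le
  have h8 : |‖e (A zu) - e (A zw)‖ - ‖zu - zw‖| ≤ θ * (4 * s) := h4.trans (mul_le_mul_of_nonneg_left h5 hθ.le)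
  have h9 : θ * ((4 + ε / 2) * s) + θ * (4 * s) ≤ ε / 2 * s := by
    have : θ * (4 + ε / 2) + θ * 4 ≤ ε / 2 := by nlinarith
    nlinarith
  rw [abs_le] at h2 h7 h8 ⊢
  constructor <;> linarith [h2.1, h2.2, h7.1, h7.2, h8.1, h8.2]

end Pool.Agent.H33.NC
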